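import Mathlib
import Pool.Agent.Lib.MP_cf191d_co.Defs
import Pool.Agent.Lib.MP_cf191d_co.Proof

set_option autoImplicit false

namespace Pool.Agent.Results.MP_cf191d_co.NeverAttained

open Pool.Agent.Lib.MP_cf191d_co

/-- For every finite graph `H` with at least two edges and every `n`,
`M_H(n) < 2^(C(n,2) - (χ(H) - 1))`: the chromatic-number bound is never attained. -/
theorem result {W : Type*} [Finite W] (H : SimpleGraph W) (hH : 2 ≤ H.edgeSet.ncard) (n : ℕ) :
    (maxFamily H n : ℝ) <
      (2 : ℝ) ^ ((n.choose 2 : ℝ) - ((H.chromaticNumber.toNat : ℝ) - 1)) :=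
  never_attained H hH n

end Pool.Agent.Results.MP_cf191d_co.NeverAttained
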